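import Mathlib

set_option autoImplicit false

open Filter Topology Set Complex

namespace Pool.Agent.H.MP_119a45_an

def U : Set ℂ := {s | -1 < s.re}

theorem U_open : IsOpen U := isOpen_lt continuous_const continuous_re

/-- bounded holomorphic functions on a half-plane -/
def BH (F : ℂ → ℂ) : Prop := DifferentiableOn ℂ F U ∧ ∃ M, ∀ s, 0 ≤ s.re → ‖F s‖ ≤ M

theorem blstep {F : ℂ → ℂ} {M a : ℝ} (h : DifferentiableOn ℂ F U) (hM : ∀ s, 0 ≤ s.re → ‖F s‖ ≤ M)
    (ha : 1 ≤ a) (h0 : F a = 0) : ∃ G : ℂ → ℂ, DifferentiableOn ℂ G U ∧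
      (∀ s, 0 ≤ s.re → ‖G s‖ ≤ M) ∧ ∀ s, (s - a) * G s = (s + a) * F s := by
  have h1 : DifferentiableOn ℂ (fun s => (s + a) * dslope F a s) U :=
    DifferentiableOn.mul (by fun_prop) ((differentiableOn_dslope (U_open.mem_nhds (by
      simp only [U, mem_ofPred_eq, ofReal_re]; linarith))).2 h)
  have h2 : ∀ s, (s - a) * ((s + a) * dslope F a s) = (s + a) * F s := fun s => by
    have := sub_smul_dslope F a s
    rw [h0, sub_zero, smul_eq_mul] at this
    rw [← this]; ring
  have hM0 : 0 ≤ M := (norm_nonneg _).trans (hM 0 (by simp))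
  have h3 : ∀ s : ℂ, 0 ≤ s.re → 2 * a ≤ ‖s‖ → ‖(s + a) * dslope F a s‖ ≤ 3 * M := fun s h4 h5 => by
    have h6 := congrArg norm (h2 s)
    have h7 : ‖s‖ - a ≤ ‖s - a‖ := by
      simpa [abs_of_pos (show 0 < a by linarith)] using norm_sub_norm_le s (a : ℂ)
    have h8 : ‖s + a‖ ≤ ‖s‖ + a := by
      simpa [abs_of_pos (show 0 < a by linarith)] using norm_add_le s (a : ℂ)
    rw [norm_mul, norm_mul (s + a) (F s)] at h6
    refine le_of_mul_le_mul_left ?_ (show 0 < ‖s - a‖ by linarith)
    rw [h6]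
    nlinarith [hM s h4, norm_nonneg (F s), norm_nonneg (s + a)]
  refine ⟨fun s => (s + a) * dslope F a s, h1, fun s hs =>
    PhragmenLindelof.right_half_plane_of_bounded_on_real (f := fun s => (s + a) * dslope F a s)
    (h1.mono fun z hz => ?_).diffContOnCl ⟨0, two_pos, 0, ?_⟩ ?_ (fun x => ?_) hs, h2⟩
  · rw [closure_setOfPred_lt_re] at hz
    simp only [U, mem_ofPred_eq] at hz ⊢; linarith
  · refine Asymptotics.IsBigO.of_bound (3 * M) ?_
    filter_upwards [mem_inf_of_left (eventually_cobounded_le_norm (2 * a)),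
      mem_inf_of_right (mem_principal_self _)] with z h4 h5
    simpa using h3 z (le_of_lt h5) h4
  · refine ⟨3 * M, eventually_map.2 ?_⟩
    filter_upwards [eventually_ge_atTop (2 * a)] with x hx
    exact h3 x (by simp; linarith) (by rw [norm_real, Real.norm_of_nonneg (by linarith)]; exact hx)
  · have h6 := congrArg norm (h2 (x * I))
    have h7 : ‖x * I + a‖ = ‖x * I - a‖ := by
      rw [← norm_neg, ← norm_conj]; simp [sub_eq_add_neg, add_comm]
    have h8 : 0 < ‖x * I - a‖ := norm_pos_iff.2 fun h => by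
      have := congrArg re h; simp at this; linarith
    rw [norm_mul, norm_mul _ (F _), h7] at h6
    rw [mul_left_cancel₀ h8.ne' h6]
    exact hM _ (by simp)

theorem blbound {M x : ℝ} (h0 : 0 < x) (h1 : x < 1) (T : Finset ℕ) : ∀ F : ℂ → ℂ,
    DifferentiableOn ℂ F U → (∀ s, 0 ≤ s.re → ‖F s‖ ≤ M) → (∀ k ∈ T, k ≠ 0 ∧ F k = 0) →
    ‖F x‖ ≤ M * Real.exp (-(x * ∑ k ∈ T, 1 / ((k : ℝ) + 1))) := by
  induction T using Finset.induction_on with
  | empty => intro F _ hM _; simpa using hM x (by simpa using h0.le)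
  | insert a T ha ih =>
    intro F h hM hT
    obtain ⟨h2, h3⟩ := hT a (Finset.mem_insert_self _ _)
    have h4 : (1 : ℝ) ≤ a := by exact_mod_cast Nat.pos_of_ne_zero h2
    obtain ⟨G, h5, h6, h7⟩ := blstep h hM h4 (by simpa using h3)
    have h8 := ih G h5 h6 fun k hk => ⟨(hT k (Finset.mem_insert_of_mem hk)).1, by
      have := h7 k
      rw [(hT k (Finset.mem_insert_of_mem hk)).2, mul_zero] at this
      refine (mul_eq_zero.1 this).resolve_left (sub_ne_zero.2 fun h => ha ?_)
      have : k = a := by exact_mod_cast h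
      exact this ▸ hk⟩
    have h9 := congrArg norm (h7 x)
    rw [norm_mul, norm_mul, ← ofReal_sub, ← ofReal_add, norm_real, norm_real,
      Real.norm_of_nonpos (by linarith), Real.norm_of_nonneg (by linarith)] at h9
    rw [Finset.sum_insert ha, mul_add, neg_add, Real.exp_add, mul_left_comm]
    have h10 := Real.add_one_le_exp (-(x * (1 / ((a : ℝ) + 1))))
    have h11 : -(x - a) ≤ (x + a) * (-(x * (1 / ((a : ℝ) + 1))) + 1) := by
      have : (x + a) * (1 / ((a : ℝ) + 1)) ≤ 1 := by
        rw [mul_one_div, div_le_one (by linarith)]; linarith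
      nlinarith
    refine le_of_mul_le_mul_left ?_ (show 0 < x + a by linarith)
    rw [← h9, ← mul_assoc]
    exact mul_le_mul (h11.trans (by gcongr)) h8 (norm_nonneg _) (by positivity)

/-- Blaschke sets of integers -/
def Bl (Z : Set ℕ) : Prop := Summable (Z.indicator fun k => 1 / ((k : ℝ) + 1))

theorem Bl.mono {Z W : Set ℕ} (h : Bl Z) (hW : W ⊆ Z) : Bl W :=
  .of_nonneg_of_le (indicator_nonneg fun _ _ => by positivity)
    (indicator_le_indicator_of_subset hW fun _ => by positivity) h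

theorem Bl.union {Z W : Set ℕ} (h : Bl Z) (hW : Bl W) : Bl (Z ∪ W) :=
  .of_nonneg_of_le (indicator_nonneg fun _ _ => by positivity) (fun k => by
    by_cases h1 : k ∈ Z <;> by_cases h2 : k ∈ W <;> simp [h1, h2]; positivity) (h.add hW)

theorem Bl.iUnion {ι : Type*} [Finite ι] {Z : ι → Set ℕ} (h : ∀ i, Bl (Z i)) : Bl (⋃ i, Z i) := by
  rw [← biUnion_univ]
  exact Set.Finite.induction_on (motive := fun s _ => Bl (⋃ i ∈ s, Z i)) _ finite_univ
    (by simp [Bl, summable_zero]) fun _ _ ih => by rw [biUnion_insert]; exact (h _).union ih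

theorem Bl.shift {Z : Set ℕ} (h : Bl Z) (c : ℕ) : Bl {k | c + k ∈ Z} := by
  refine .of_nonneg_of_le (indicator_nonneg fun _ _ => by positivity) (fun k => ?_)
    ((h.comp_injective (add_right_injective c)).mul_left ((c : ℝ) + 1))
  by_cases hk : c + k ∈ Z
  · simp only [Function.comp, indicator_of_mem hk,
      indicator_of_mem (show k ∈ {k | c + k ∈ Z} from hk)]
    rw [mul_one_div, div_le_div_iff₀ (by positivity) (by positivity)]
    push_cast
    nlinarith [mul_nonneg (c.cast_nonneg (α := ℝ)) (k.cast_nonneg (α := ℝ))]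
  · simp [hk]

theorem not_Bl : ¬ Bl univ := fun h => by
  rw [Bl, indicator_univ] at h
  exact Real.not_summable_one_div_natCast ((summable_nat_add_iff 1).1 (by simpa using h))

theorem U_pre : IsPreconnected U := (convex_halfSpace_re_gt (-1)).isPreconnected

theorem zero_of_seg {F : ℂ → ℂ} (h : DifferentiableOn ℂ F U) {a b : ℝ} (ha : -1 < a)
    (hz : {x ∈ Icc a b | F x = 0}.Infinite) : ∀ s ∈ U, F s = 0 := by
  obtain ⟨x, h1, h2⟩ := hz.exists_accPt_of_subset_isCompact isCompact_Icc (sep_subset _ _)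
  refine (h.analyticOnNhd U_open).eqOn_zero_of_preconnected_of_frequently_eq_zero U_pre
    (z₀ := (x : ℂ)) (by simp only [U, mem_ofPred_eq, ofReal_re]; linarith [h1.1]) ?_
  have h3 : Tendsto ofReal (𝓝[≠] x) (𝓝[≠] (x : ℂ)) :=
    tendsto_nhdsWithin_iff.2 ⟨(continuous_ofReal.tendsto x).mono_left nhdsWithin_le_nhds,
      eventually_nhdsWithin_of_forall fun y hy h => hy (ofReal_injective h)⟩
  exact h3.frequently ((accPt_iff_frequently_nhdsNE.1 h2).mono fun y hy => hy.2)

theorem BH.uniq {F : ℂ → ℂ} (h : BH F) : (∀ s ∈ U, F s = 0) ∨ Bl {k | F k = 0} := by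
  obtain ⟨h, M, hM⟩ := h
  refine or_iff_not_imp_right.2 fun h1 => zero_of_seg h (a := 1 / 3) (b := 1 / 2) (by norm_num)
    ((Icc_infinite (show (1 / 3 : ℝ) < 1 / 2 by norm_num)).mono fun x hx => ⟨hx, ?_⟩)
  have h2 : ¬ Bl ({k | F k = 0} \ {0}) := fun h2 => h1 ((h2.union (W := {0})
    (summable_of_ne_finset_zero (s := {0}) fun k hk => by simp at hk; simp [hk])).mono
      fun k hk => by by_cases h : k = 0 <;> simp_all)
  have h3 := (not_summable_iff_tendsto_nat_atTop_of_nonneg
    (indicator_nonneg fun _ _ => by positivity)).1 h2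
  have h4 := (Real.tendsto_exp_neg_atTop_nhds_zero.comp
    (h3.const_mul_atTop (show 0 < x by linarith [hx.1]))).const_mul M
  rw [mul_zero] at h4
  refine norm_le_zero_iff.1 (ge_of_tendsto' h4 fun n => ?_)
  classical
  have := blbound (by linarith [hx.1]) (show x < 1 by linarith [hx.2])
    ((Finset.range n).filter (· ∈ ({k : ℕ | F k = 0} \ {0}))) F h hM fun k hk =>
      ⟨(Finset.mem_filter.1 hk).2.2, (Finset.mem_filter.1 hk).2.1⟩
  rw [Finset.sum_filter] at this
  simpa only [Function.comp, indicator_apply] using this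

theorem BH.add {F G : ℂ → ℂ} (h : BH F) (k : BH G) : BH fun s => F s + G s := by
  obtain ⟨h, M, hM⟩ := h
  obtain ⟨k, N, hN⟩ := k
  exact ⟨h.add k, M + N, fun s hs => norm_add_le_of_le (hM s hs) (hN s hs)⟩

theorem BH.mul {F G : ℂ → ℂ} (h : BH F) (k : BH G) : BH fun s => F s * G s := by
  obtain ⟨h, M, hM⟩ := h
  obtain ⟨k, N, hN⟩ := k
  exact ⟨h.mul k, M * N, fun s hs => norm_mul_le_of_le (hM s hs) (hN s hs)⟩

theorem BH.const (c : ℂ) : BH fun _ => c := ⟨by fun_prop, ‖c‖, fun _ _ => le_rfl⟩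

theorem BH.sum {ι : Type*} (T : Finset ι) {F : ι → ℂ → ℂ} (h : ∀ i, BH (F i)) :
    BH fun s => ∑ i ∈ T, F i s := by
  classical
  induction T using Finset.induction_on with
  | empty => simpa using BH.const 0
  | insert a T ha ih => simpa only [Finset.sum_insert ha] using (h a).add ih

theorem BH.prod {ι : Type*} (T : Finset ι) {F : ι → ℂ → ℂ} (h : ∀ i, BH (F i)) :
    BH fun s => ∏ i ∈ T, F i s := by
  classical
  induction T using Finset.induction_on with
  | empty => simpa using BH.const 1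
  | insert a T ha ih => simpa only [Finset.prod_insert ha] using (h a).mul ih

theorem BH.det {n : ℕ} {F : Fin n → Fin n → ℂ → ℂ} (h : ∀ i j, BH (F i j)) :
    BH fun s => (Matrix.of fun i j => F i j s).det := by
  simp only [Matrix.det_apply', Matrix.of_apply]
  exact BH.sum _ fun σ => (BH.const _).mul (BH.prod _ fun i => h _ _)

theorem BH.shift {F : ℂ → ℂ} (h : BH F) {c : ℝ} (hc : 0 ≤ c) : BH fun s => F (s + c) := by
  obtain ⟨h, M, hM⟩ := h
  refine ⟨h.comp (by fun_prop) fun s hs => ?_, M, fun s hs => hM _ (by simp; linarith)⟩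
  simp only [U, mem_ofPred_eq, add_re, ofReal_re] at hs ⊢; linarith

/-- Hankel determinants -/
noncomputable def Hk (F : ℂ → ℂ) (n : ℕ) (s : ℂ) : ℂ :=
  (Matrix.of fun i j : Fin n => F (s + ((i + j : ℕ) : ℝ))).det

theorem BH.hk {F : ℂ → ℂ} (h : BH F) (n : ℕ) : BH (Hk F n) :=
  BH.det fun _ _ => h.shift (Nat.cast_nonneg _)

theorem hankel {F : ℂ → ℂ} (h : BH F) (n : ℕ) (h0 : ∀ s ∈ U, Hk F n s = 0) :
    ∃ (d : ℕ) (c : Fin (d + 1) → ℂ), c (Fin.last d) ≠ 0 ∧
      ∀ t : ℕ, ∑ m, c m * F ((t + 2 + m : ℕ) : ℝ) = 0 := by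
  induction n with
  | zero => simpa [Hk] using h0 0 (by simp [U])
  | succ n ih =>
    by_cases h1 : ∀ s ∈ U, Hk F n s = 0
    · exact ih h1
    obtain ⟨x, h2, h3⟩ : ∃ x ∈ Icc (1 : ℝ) 2, ∀ k : ℕ, Hk F n (x + (k : ℝ)) ≠ 0 := by
      by_contra hc
      push Not at hc
      have h4 : (⋃ k : ℕ, {x ∈ Icc (1 : ℝ) 2 | Hk F n (x + (k : ℝ)) = 0}).Countable :=
        countable_iUnion fun k => Finite.countable (not_infinite.1 fun hi => h1
          (zero_of_seg (h.hk n).1 (a := 1 + k) (b := 2 + k)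
            (by have : (0 : ℝ) ≤ k := k.cast_nonneg
                linarith) ((hi.image (f := fun x : ℝ => x + k) (add_left_injective _).injOn).mono
            (by rintro _ ⟨x, ⟨h5, h6⟩, rfl⟩
                exact ⟨⟨by linarith [h5.1], by linarith [h5.2]⟩, by simpa using h6⟩))))
      have h5 := (h4.mono (s₁ := Icc 1 2) fun x hx => by
        obtain ⟨k, hk⟩ := hc x hx
        exact mem_iUnion.2 ⟨k, hx, hk⟩).measure_zero MeasureTheory.volume
      norm_num at h5
    have h4 : ∀ (k : ℕ) (c : Fin (n + 1) → ℂ), c (Fin.last n) = 0 →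
        (∀ i < n, ∑ m, c m * F (x + ((k + i + m : ℕ) : ℝ)) = 0) → c = 0 := fun k c h5 h6 => by
      have h7 : (fun m : Fin n => c m.castSucc) = 0 := by
        by_contra h7
        refine h3 k (Matrix.exists_mulVec_eq_zero_iff.1 ⟨_, h7, funext fun i => ?_⟩)
        have := h6 i i.2
        rw [Fin.sum_univ_castSucc, h5, zero_mul, add_zero] at this
        rw [Pi.zero_apply, ← this, Matrix.mulVec, dotProduct]
        refine Finset.sum_congr rfl fun m _ => ?_
        simp [mul_comm, add_assoc]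
      funext m
      exact Fin.lastCases h5 (fun m => congrFun h7 m) m
    have h5 : ∀ k : ℕ, ∃ c : Fin (n + 1) → ℂ, c (Fin.last n) = 1 ∧
        ∀ i < n + 1, ∑ m, c m * F (x + ((k + i + m : ℕ) : ℝ)) = 0 := fun k => by
      obtain ⟨c, h6, h7⟩ := Matrix.exists_mulVec_eq_zero_iff.2 (h0 (x + (k : ℝ)) (by
        have : (0 : ℝ) ≤ k := k.cast_nonneg
        simp only [U, mem_ofPred_eq, add_re, ofReal_re]; linarith [h2.1]))
      have h8 : ∀ i < n + 1, ∑ m, c m * F (x + ((k + i + m : ℕ) : ℝ)) = 0 := fun i hi => by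
        rw [← (congrFun h7 ⟨i, hi⟩).trans (Pi.zero_apply _)]
        refine Finset.sum_congr rfl fun m _ => ?_
        simp [mul_comm, add_assoc]
      have h9 : c (Fin.last n) ≠ 0 := fun h9 => h6 (h4 k c h9 fun i hi => h8 i (by omega))
      refine ⟨fun m => (c (Fin.last n))⁻¹ * c m, inv_mul_cancel₀ h9, fun i hi => ?_⟩
      simp only [mul_assoc, ← Finset.mul_sum, h8 i hi, mul_zero]
    choose c h6 h7 using h5
    have h8 : ∀ k, c k = c 0 := fun k => by
      induction k with
      | zero => rfl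
      | succ k ih =>
        rw [← ih, ← sub_eq_zero]
        refine h4 (k + 1) _ (by simp [h6]) fun i hi => ?_
        have a := h7 (k + 1) i (by omega)
        have b := h7 k (i + 1) (by omega)
        rw [show k + (i + 1) = k + 1 + i by ring] at b
        simp only [Pi.sub_apply, sub_mul, Finset.sum_sub_distrib, a, b, sub_zero]
    have h9 : BH fun s => ∑ m, c 0 m * F (s + (x + (m : ℕ) : ℝ)) := BH.sum _ fun m =>
      (BH.const _).mul (h.shift (by have : (0 : ℝ) ≤ (m : ℕ) := Nat.cast_nonneg _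
                                    linarith [h2.1]))
    refine ⟨n, c 0, by simp [h6], fun t => ?_⟩
    rcases h9.uniq with h10 | h10
    · rw [← h10 ((t + 2 : ℝ) - x) (by
        have : (0 : ℝ) ≤ t := t.cast_nonneg
        simp only [U, mem_ofPred_eq, sub_re, ofReal_re]; linarith [h2.2])]
      refine Finset.sum_congr rfl fun m _ => ?_
      congr 2; push_cast; ring
    · refine absurd (h10.mono fun k _ => ?_) not_Bl
      have := h7 k 0 (by omega)
      rw [h8 k] at this
      rw [mem_ofPred_eq, ← this]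
      refine Finset.sum_congr rfl fun m _ => ?_
      congr 2; push_cast; ring

end Pool.Agent.H.MP_119a45_an
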