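import Mathlib

set_option autoImplicit false

open Filter Topology Set Complex MeasureTheory Metric
open scoped ComplexConjugate

namespace Pool.Agent.H.MP_119a45_an

noncomputable def mu : Measure ℂ := volume.restrict (ball 0 1)

instance : IsFiniteMeasure mu := isFiniteMeasure_restrict.2 measure_ball_lt_top.ne

theorem mu_ae : ∀ᵐ z ∂mu, ‖z‖ < 1 :=
  (ae_restrict_mem measurableSet_ball).mono fun _ h => by simpa using h

theorem int_mul {g φ : ℂ → ℂ} (hg : Integrable g mu) (hφ : Continuous φ) :
    Integrable (fun z => g z * φ z) mu := by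
  obtain ⟨C, hC⟩ := (isCompact_closedBall (0 : ℂ) 1).exists_bound_of_continuousOn hφ.continuousOn
  exact hg.mul_bdd hφ.aestronglyMeasurable (mu_ae.mono fun z hz => hC z (by simpa using hz.le))

/-- moments -/
noncomputable def mo (g : ℂ → ℂ) (a b : ℕ) : ℂ := ∫ z, g z * (z ^ a * conj z ^ b) ∂mu

variable {n : ℕ}

noncomputable abbrev pm (n : ℕ) : Measure (Fin n → ℂ) := Measure.pi fun _ => mu

theorem pm_ae : ∀ᵐ z ∂pm n, z ∈ closedBall (0 : Fin n → ℂ) 1 := by
  have : ∀ᵐ z ∂pm n, ∀ i, ‖z i‖ < 1 := eventually_all.2 fun i =>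
    (Measure.tendsto_eval_ae_ae (μ := fun _ => mu) (i := i)).eventually mu_ae
  exact this.mono fun z hz => by
    rw [mem_closedBall_zero_iff, pi_norm_le_iff_of_nonneg zero_le_one]
    exact fun i => (hz i).le

theorem int_pi {G φ : (Fin n → ℂ) → ℂ} (hG : Integrable G (pm n)) (hφ : Continuous φ) :
    Integrable (fun z => G z * φ z) (pm n) := by
  obtain ⟨C, hC⟩ := (isCompact_closedBall (0 : Fin n → ℂ) 1).exists_bound_of_continuousOn
    hφ.continuousOn
  exact hG.mul_bdd hφ.aestronglyMeasurable (pm_ae.mono hC)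

theorem int_perm (σ : Equiv.Perm (Fin n)) (F : (Fin n → ℂ) → ℂ) :
    ∫ z, F (z ∘ σ) ∂pm n = ∫ z, F z ∂pm n :=
  (measurePreserving_arrowCongr' (fun _ => mu) (fun _ => mu) σ.symm (MeasurableEquiv.refl ℂ)
    fun _ => MeasurePreserving.id _).integral_comp' F

theorem ex_perm {z w : Fin n → ℂ} (h : ∀ j : ℕ, ∏ i, ((j : ℂ) - z i) = ∏ i, ((j : ℂ) - w i)) :
    ∃ σ : Equiv.Perm (Fin n), z = w ∘ σ := by
  classical
  have h1 := Polynomial.eq_of_infinite_eval_eq
    ((Finset.univ.val.map z).map fun a => Polynomial.X - Polynomial.C a).prod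
    ((Finset.univ.val.map w).map fun a => Polynomial.X - Polynomial.C a).prod
    ((infinite_range_of_injective (Nat.cast_injective (R := ℂ))).mono (by
      rintro _ ⟨j, rfl⟩
      simp only [mem_ofPred_eq, Multiset.map_map, ← Finset.prod_eq_multiset_prod,
        Polynomial.eval_prod]
      simpa using h j))
  have h2 := congrArg Polynomial.roots h1
  rw [Polynomial.roots_multiset_prod_X_sub_C, Polynomial.roots_multiset_prod_X_sub_C] at h2
  refine ⟨Equiv.ofFiberEquiv (f := z) (g := w) fun c => Fintype.equivOfCardEq ?_,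
    funext fun i => (Equiv.ofFiberEquiv_map _ i).symm⟩
  have := congrArg (Multiset.count c) h2
  rw [Multiset.count_map, Multiset.count_map] at this
  rw [Fintype.card_subtype, Fintype.card_subtype]
  simpa only [Finset.card, Finset.filter_val, eq_comm] using this

/-- symmetric polynomial functions -/
def SP (P : (Fin n → ℂ) → ℂ) : Prop :=
  (∃ p : MvPolynomial (Fin n) ℂ, ∀ z, P z = MvPolynomial.eval z p) ∧
    ∀ (σ : Equiv.Perm (Fin n)) z, P (z ∘ σ) = P z

theorem SP.mul {P Q : (Fin n → ℂ) → ℂ} (h : SP P) (k : SP Q) : SP fun z => P z * Q z := by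
  obtain ⟨⟨p, h1⟩, h2⟩ := h
  obtain ⟨⟨q, k1⟩, k2⟩ := k
  exact ⟨⟨p * q, fun z => by simp [h1, k1]⟩, fun σ z => by simp only [h2, k2]⟩

theorem SP.one : SP fun _ : Fin n → ℂ => 1 := ⟨⟨1, by simp⟩, fun _ _ => rfl⟩

theorem SP.e (j : ℕ) : SP fun z : Fin n → ℂ => ∏ i, ((j : ℂ) - z i) :=
  ⟨⟨∏ i, (MvPolynomial.C (j : ℂ) - MvPolynomial.X i), fun z => by simp⟩,
    fun σ z => Equiv.prod_comp σ fun i => (j : ℂ) - z i⟩

theorem sw {h : (Fin n → ℂ) → ℂ} (hi : Integrable h (pm n))
    (hs : ∀ (σ : Equiv.Perm (Fin n)) z, h (z ∘ σ) = h z)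
    (h0 : ∀ P Q, SP P → SP Q → ∫ z, h z * (P z * conj (Q z)) ∂pm n = 0) : h =ᵐ[pm n] 0 := by
  classical
  let K := closedBall (0 : Fin n → ℂ) 1
  have : CompactSpace K := isCompact_iff_compactSpace.1 (isCompact_closedBall _ _)
  let e : C(K, ℕ → ℂ) := ⟨fun z j => ∏ i, ((j : ℂ) - z.1 i), continuous_pi fun j =>
    continuous_finset_prod _ fun i _ =>
      continuous_const.sub ((continuous_apply i).comp continuous_subtype_val)⟩
  have : CompactSpace (range e) := isCompact_iff_compactSpace.1 (isCompact_range e.continuous)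
  let q : C(K, range e) := ⟨rangeFactorization e, e.continuous.rangeFactorization⟩
  have hq : IsQuotientMap q := q.continuous.isClosedMap.isQuotientMap q.continuous
    rangeFactorization_surjective
  let r : (Fin n → ℂ) → K := fun z => if h : z ∈ K then ⟨z, h⟩ else ⟨0, mem_closedBall_self zero_le_one⟩
  have hr : Measurable r := Measurable.dite measurable_id measurable_const measurableSet_closedBall
  have hr1 : ∀ᵐ z ∂pm n, (r z).1 = z := pm_ae.mono fun z hz => by
    simp only [r, dif_pos (show z ∈ K from hz)]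
  have h1 : ∀ F : C(range e, ℂ), Integrable (fun z => h z * F (q (r z))) (pm n) := fun F =>
    hi.mul_bdd ((F.comp q).continuous.measurable.comp hr).aestronglyMeasurable
      (.of_forall fun z => F.norm_coe_le_norm _)
  let Λ : C(range e, ℂ) →L[ℂ] ℂ := LinearMap.mkContinuous
    { toFun := fun F => ∫ z, h z * F (q (r z)) ∂pm n
      map_add' := fun F G => by
        rw [← integral_add (h1 F) (h1 G)]
        simp only [ContinuousMap.add_apply, mul_add]
      map_smul' := fun c F => by
        rw [RingHom.id_apply, smul_eq_mul, ← integral_const_mul]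
        simp only [ContinuousMap.smul_apply, smul_eq_mul, mul_left_comm] } (∫ z, ‖h z‖ ∂pm n) fun F => by
    rw [← integral_mul_const]
    refine norm_integral_le_of_norm_le (hi.norm.mul_const _) (.of_forall fun z => ?_)
    rw [norm_mul]
    exact mul_le_mul_of_nonneg_left (F.norm_coe_le_norm _) (norm_nonneg _)
  let s : Set C(range e, ℂ) := range fun j : ℕ => ⟨fun y => y.1 j, (continuous_apply j).comp continuous_subtype_val⟩
  have h2 : ∀ F ∈ Submonoid.closure (s ∪ star s), ∃ P Q : (Fin n → ℂ) → ℂ, SP P ∧ SP Q ∧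
      ∀ z : K, F (q z) = P z.1 * conj (Q z.1) := fun F hF => by
    induction hF using Submonoid.closure_induction with
    | mem F hF =>
      rcases hF with ⟨j, rfl⟩ | ⟨j, hj⟩
      · exact ⟨_, _, SP.e j, SP.one, fun z => by rw [map_one, mul_one]; rfl⟩
      · refine ⟨_, _, SP.one, SP.e j, fun z => ?_⟩
        rw [← star_star F, ← hj, one_mul]; rfl
    | one => exact ⟨_, _, SP.one, SP.one, fun z => by simp⟩
    | mul F G _ _ a b =>
      obtain ⟨P, Q, a1, a2, a3⟩ := a
      obtain ⟨P', Q', b1, b2, b3⟩ := b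
      exact ⟨_, _, a1.mul b1, a2.mul b2, fun z => by
        rw [ContinuousMap.mul_apply, a3, b3, map_mul]; ring⟩
  have h3 : ∀ F, Λ F = 0 := fun F => by
    have h4 := ContinuousMap.starSubalgebra_topologicalClosure_eq_top_of_separatesPoints
      (StarAlgebra.adjoin ℂ s) fun x y hxy => by
        obtain ⟨j, hj⟩ := Function.ne_iff.1 (Subtype.coe_ne_coe.2 hxy)
        exact ⟨_, ⟨_, StarAlgebra.subset_adjoin ℂ s ⟨j, rfl⟩, rfl⟩, hj⟩
    have h5 : F ∈ closure (StarAlgebra.adjoin ℂ s : Set C(range e, ℂ)) :=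
      (show F ∈ (StarAlgebra.adjoin ℂ s).topologicalClosure from h4 ▸ trivial)
    refine closure_minimal (t := {F | Λ F = 0}) (fun G hG => ?_)
      (isClosed_eq Λ.continuous continuous_const) h5
    have h6 : G ∈ Submodule.span ℂ (Submonoid.closure (s ∪ star s) : Set C(range e, ℂ)) := by
      rw [← Algebra.adjoin_eq_span, ← StarAlgebra.adjoin_toSubalgebra]; exact hG
    refine (Submodule.span_le (p := LinearMap.ker Λ.toLinearMap)).2 (fun F hF => ?_) h6
    obtain ⟨P, Q, a1, a2, a3⟩ := h2 F hF
    refine Eq.trans (integral_congr_ae (hr1.mono fun z hz => ?_)) (h0 P Q a1 a2)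
    simp only [a3, hz]
  refine ae_eq_zero_of_integral_contDiff_smul_eq_zero hi.locallyIntegrable fun g hg _ => ?_
  have hc : Continuous fun z => (g z : ℂ) := continuous_ofReal.comp hg.continuous
  have hc2 : ∀ σ : Equiv.Perm (Fin n), Continuous fun z : Fin n → ℂ => (g (z ∘ σ) : ℂ) := fun σ =>
    hc.comp (continuous_pi fun i => continuous_apply (σ i))
  let F : C(K, ℂ) := ⟨fun z => ∑ σ : Equiv.Perm (Fin n), g (z.1 ∘ σ),
    continuous_finset_sum _ fun σ _ => (hc2 σ).comp continuous_subtype_val⟩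
  have h4 : Function.FactorsThrough F q := fun z w hzw => by
    obtain ⟨τ, hτ⟩ := ex_perm (congrFun (congrArg Subtype.val hzw))
    change ∑ σ : Equiv.Perm (Fin n), (g (z.1 ∘ σ) : ℂ) = ∑ σ : Equiv.Perm (Fin n), (g (w.1 ∘ σ) : ℂ)
    rw [hτ]
    exact Equiv.sum_comp (Equiv.mulLeft τ) fun σ : Equiv.Perm (Fin n) => (g (w.1 ∘ σ) : ℂ)
  have h5 : ∫ z, ∑ σ : Equiv.Perm (Fin n), h z * g (z ∘ σ) ∂pm n = 0 := by
    refine Eq.trans (integral_congr_ae (hr1.mono fun z hz => ?_)) (h3 (hq.lift F h4))
    have : hq.lift F h4 (q (r z)) = F (r z) := DFunLike.congr_fun (hq.lift_comp F h4) (r z)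
    simp only [this, F, ContinuousMap.coe_mk, hz, Finset.mul_sum]
  rw [integral_finset_sum _ fun σ _ => int_pi hi (hc2 σ)] at h5
  have h6 : ∀ σ : Equiv.Perm (Fin n), ∫ z, h z * g (z ∘ σ) ∂pm n = ∫ z, h z * g z ∂pm n := fun σ => by
    rw [← int_perm σ fun z => h z * g z]; simp only [hs]
  simp only [h6, Finset.sum_const, nsmul_eq_mul, mul_eq_zero, Nat.cast_eq_zero,
    Finset.card_eq_zero, Finset.univ_nonempty.ne_empty, false_or] at h5
  simpa only [real_smul, mul_comm] using h5

theorem luecking {g : ℂ → ℂ} (hg : Integrable g mu)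
    (h : ∀ a k : Fin (n + 1) → ℕ, (Matrix.of fun i j => mo g (a i) (k j)).det = 0) :
    g =ᵐ[mu] 0 := by
  have hG : Integrable (fun z : Fin (n + 1) → ℂ => ∏ i, g (z i)) (pm (n + 1)) :=
    Integrable.fintype_prod fun _ => hg
  have hc : ∀ p : MvPolynomial (Fin (n + 1)) ℂ, Continuous fun z => MvPolynomial.eval z p :=
    fun p => p.continuous_eval
  have h1 : ∀ p q : MvPolynomial (Fin (n + 1)) ℂ, ∑ σ : Equiv.Perm (Fin (n + 1)),
      ((Equiv.Perm.sign σ : ℤ) : ℂ) * ∫ z, (∏ i, g (z i)) * (MvPolynomial.eval z p *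
        conj (MvPolynomial.eval (z ∘ σ) q)) ∂pm (n + 1) = 0 := fun p q => by
    have hi : ∀ (p q : MvPolynomial (Fin (n + 1)) ℂ) (σ : Equiv.Perm (Fin (n + 1))),
        Integrable (fun z => (∏ i, g (z i)) * (MvPolynomial.eval z p *
          conj (MvPolynomial.eval (z ∘ σ) q))) (pm (n + 1)) := fun p q σ =>
      int_pi hG ((hc p).mul (continuous_conj.comp ((hc q).comp (by fun_prop))))
    induction p using MvPolynomial.induction_on' with
    | add p p' a b =>
      simp only [map_add, add_mul, mul_add, integral_add (hi _ _ _) (hi _ _ _),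
        Finset.sum_add_distrib, a, b, add_zero]
    | monomial α c =>
      induction q using MvPolynomial.induction_on' with
      | add q q' a b =>
        simp only [map_add, mul_add, integral_add (hi _ _ _) (hi _ _ _),
          Finset.sum_add_distrib, a, b, add_zero]
      | monomial β d =>
        have h2 := h α β
        rw [Matrix.det_apply'] at h2
        rw [← mul_zero (c * conj d), ← h2, Finset.mul_sum]
        refine Finset.sum_congr rfl fun σ _ => ?_
        rw [mul_left_comm]
        congr 1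
        simp only [Matrix.of_apply, mo]
        rw [← integral_fintype_prod_eq_prod (fun i z => g z * (z ^ α (σ i) * conj z ^ β i)),
          ← int_perm σ fun z => ∏ i, g (z i) * (z i ^ α (σ i) * conj (z i) ^ β i),
          ← integral_const_mul]
        refine integral_congr_ae (.of_forall fun z => ?_)
        simp only [MvPolynomial.eval_monomial, Finsupp.prod_fintype _ _ fun _ => pow_zero _,
          map_mul, map_prod, map_pow, Finset.prod_mul_distrib, Function.comp]
        rw [Equiv.prod_comp σ fun i => g (z i), Equiv.prod_comp σ fun i => z i ^ α i]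
        ring
  set V : (Fin (n + 1) → ℂ) → ℂ := fun z => (Matrix.vandermonde z).det with hV
  have hV1 : ∀ z, V z = MvPolynomial.eval z (Matrix.vandermonde MvPolynomial.X).det := fun z => by
    rw [RingHom.map_det, hV]; simp only; congr 1; ext i j; simp
  have hV2 : ∀ (σ : Equiv.Perm (Fin (n + 1))) z, V (z ∘ σ) = ((Equiv.Perm.sign σ : ℤ) : ℂ) * V z :=
    fun σ z => Matrix.det_permute σ (Matrix.vandermonde z)
  have hs : ∀ σ : Equiv.Perm (Fin (n + 1)),
      ((Equiv.Perm.sign σ : ℤ) : ℂ) * ((Equiv.Perm.sign σ : ℤ) : ℂ) = 1 := fun σ => by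
    rw [← Int.cast_mul, ← Units.val_mul, Int.units_mul_self]; simp
  have h2 := sw (h := fun z => (∏ i, g (z i)) * (V z * conj (V z)))
    (int_pi hG (by simp only [hV1]; exact (hc _).mul (continuous_conj.comp (hc _))))
    (fun σ z => by
      simp only [hV2, map_mul, map_intCast, Function.comp]
      rw [Equiv.prod_comp σ fun i => g (z i)]
      linear_combination (∏ i, g (z i)) * V z * conj (V z) * hs σ)
    (by
      rintro P Q ⟨⟨p, a1⟩, -⟩ ⟨⟨q, b1⟩, b2⟩
      have h3 := h1 ((Matrix.vandermonde MvPolynomial.X).det * p)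
        ((Matrix.vandermonde MvPolynomial.X).det * q)
      simp only [map_mul, ← hV1, ← a1, ← b1, hV2, b2, map_intCast] at h3
      rw [Finset.sum_congr rfl (g := fun _ => ∫ z, (∏ i, g (z i)) * (V z * conj (V z)) *
        (P z * conj (Q z)) ∂pm (n + 1)) fun σ _ => by
          rw [← integral_const_mul]
          refine integral_congr_ae (.of_forall fun z => ?_)
          simp only
          linear_combination (∏ i, g (z i)) * V z * conj (V z) * P z * conj (Q z) * hs σ] at h3
      simpa [Nat.factorial_ne_zero, Fintype.card_perm] using h3)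
  have h3 : ∀ᵐ z ∂pm (n + 1), Function.Injective z := by
    rw [pm, mu, ← Measure.restrict_pi_pi]
    refine ae_restrict_of_ae ?_
    have : ∀ᵐ z ∂(volume : Measure (Fin (n + 1) → ℂ)), ∀ i j, i ≠ j → z i ≠ z j :=
      eventually_all.2 fun i => eventually_all.2 fun j => eventually_all.2 fun hij => by
        have := Measure.addHaar_submodule (volume : Measure (Fin (n + 1) → ℂ))
          (LinearMap.ker (LinearMap.proj (R := ℝ) (φ := fun _ : Fin (n + 1) => ℂ) i -
            LinearMap.proj (R := ℝ) (φ := fun _ : Fin (n + 1) => ℂ) j)) fun h => by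
            have : (Pi.single i 1 : Fin (n + 1) → ℂ) ∈ LinearMap.ker
              (LinearMap.proj (R := ℝ) (φ := fun _ : Fin (n + 1) => ℂ) i -
              LinearMap.proj (R := ℝ) (φ := fun _ : Fin (n + 1) => ℂ) j) := by
              rw [h]; trivial
            simp [hij.symm] at this
        refine (measure_eq_zero_iff_ae_notMem.1 this).mono fun z hz => ?_
        simpa [sub_eq_zero] using hz
    exact this.mono fun z hz i j hij => by_contra fun h => hz i j h hij
  have h4 : pm (n + 1) (univ.pi fun _ => {z | g z ≠ 0}) = 0 :=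
    measure_eq_zero_iff_ae_notMem.2 ((h2.and h3).mono fun z hz hz' => by
      have := Matrix.det_vandermonde_ne_zero_iff.2 hz.2
      exact mul_ne_zero (Finset.prod_ne_zero_iff.2 fun i _ => hz' i trivial)
        (mul_ne_zero this (by simpa using this)) hz.1)
  rw [Measure.pi_pi, Finset.prod_const] at h4
  exact pow_eq_zero_iff (by simp) |>.1 h4

end Pool.Agent.H.MP_119a45_an
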