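import Pool.Agent.H.MP_119a45_an.A
import Pool.Agent.H.MP_119a45_an.B

set_option autoImplicit false

open Filter Topology Set Complex MeasureTheory Metric
open scoped ComplexConjugate

namespace Pool.Agent.H.MP_119a45_an

/-- Mellin transform -/
noncomputable def Ph (h : ℂ → ℂ) (s : ℂ) : ℂ :=
  ∫ z, h z * cexp ((s + 2) * (2 * Real.log ‖z‖ : ℝ)) ∂mu

theorem mu_ne : ∀ᵐ z ∂mu, z ≠ 0 := ae_restrict_of_ae (by simp [ae_iff])

theorem lg_le {z : ℂ} (hz : ‖z‖ < 1) : 2 * Real.log ‖z‖ ≤ 0 := by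
  have := Real.log_nonpos (norm_nonneg z) hz.le
  linarith

theorem ex_le {s : ℂ} (hs : s ∈ U) {w : ℝ} (hw : w ≤ 0) : ‖cexp ((s + 2) * w)‖ ≤ Real.exp w := by
  rw [norm_exp]
  simp only [U, mem_ofPred_eq] at hs
  simp only [mul_re, add_re, re_ofNat, ofReal_re, ofReal_im, mul_zero, sub_zero]
  exact Real.exp_le_exp.2 (by nlinarith)

theorem Ph_BH {h : ℂ → ℂ} (hi : Integrable h mu) : BH (Ph h) := by
  have hm : ∀ s : ℂ, Measurable fun z : ℂ => cexp ((s + 2) * (2 * Real.log ‖z‖ : ℝ)) :=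
    fun s => by fun_prop
  have h1 : ∀ s ∈ U, ∀ᵐ z ∂mu, ‖cexp ((s + 2) * (2 * Real.log ‖z‖ : ℝ))‖ ≤ 1 := fun s hs =>
    mu_ae.mono fun z hz => (ex_le hs (lg_le hz)).trans (Real.exp_le_one_iff.2 (lg_le hz))
  refine ⟨fun s hs => ?_, ∫ z, ‖h z‖ ∂mu, fun s hs => norm_integral_le_of_norm_le hi.norm
    ((h1 s (by simp only [U, mem_ofPred_eq]; linarith)).mono fun z hz => ?_)⟩
  · refine (hasDerivAt_integral_of_dominated_loc_of_deriv_le (U_open.mem_nhds hs)
      (F' := fun s z => h z * (cexp ((s + 2) * (2 * Real.log ‖z‖ : ℝ)) * (2 * Real.log ‖z‖ : ℝ)))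
      (bound := fun z => ‖h z‖)
      (.of_forall fun s => hi.1.mul (hm s).aestronglyMeasurable)
      (hi.mul_bdd (hm s).aestronglyMeasurable (h1 s hs))
      (hi.1.mul ((hm s).mul (by fun_prop)).aestronglyMeasurable)
      (mu_ae.mono fun z hz t ht => ?_) hi.norm
      (.of_forall fun z t _ => ?_)).2.differentiableAt.differentiableWithinAt
    · rw [norm_mul, norm_mul, norm_real, Real.norm_of_nonpos (lg_le hz)]
      refine mul_le_of_le_one_right (norm_nonneg _)
        ((mul_le_mul_of_nonneg_right (ex_le ht (lg_le hz)) (by linarith [lg_le hz])).trans ?_)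
      generalize 2 * Real.log ‖z‖ = w
      have := Real.add_one_le_exp (-w)
      have h2 := Real.exp_pos w
      have h3 : Real.exp w * Real.exp (-w) = 1 := by rw [← Real.exp_add]; simp
      nlinarith
    · simpa using ((((hasDerivAt_id t).add_const 2).mul_const
        ((2 * Real.log ‖z‖ : ℝ) : ℂ)).cexp.const_mul (h z))
  · rw [norm_mul]; exact mul_le_of_le_one_right (norm_nonneg _) hz

theorem Ph_nat (g : ℂ → ℂ) (a b k : ℕ) :
    Ph (fun z => g z * (z ^ a * conj z ^ b)) (k : ℝ) = mo g (a + k + 2) (b + k + 2) := by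
  refine integral_congr_ae (mu_ne.mono fun z hz => ?_)
  have : cexp (((k : ℝ) + 2) * (2 * Real.log ‖z‖ : ℝ)) = (z * conj z) ^ (k + 2) := by
    rw [mul_conj', ← ofReal_pow, ← Real.exp_log (show 0 < ‖z‖ ^ 2 by positivity), Real.log_pow,
      ofReal_exp, ← exp_nat_mul]
    push_cast; rfl
  simp only [this]
  ring

theorem Ph_nat' (g : ℂ → ℂ) (k : ℕ) : Ph g (k : ℝ) = mo g (k + 2) (k + 2) := by
  simpa using Ph_nat g 0 0 k

/-- radial functions -/
def Rad (f : ℂ → ℂ) : Prop := ∃ φ : ℝ → ℂ, f =ᵐ[mu] fun z => φ ‖z‖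

theorem int_rot (ω : Circle) (F : ℂ → ℂ) : ∫ z, F (ω * z) ∂mu = ∫ z, F z ∂mu := by
  have := (rotation ω).measurePreserving.restrict_preimage (s := ball 0 1) measurableSet_ball
  rw [show (rotation ω) ⁻¹' ball 0 1 = ball 0 1 by
    ext z; rw [mem_preimage, mem_ball_zero_iff, mem_ball_zero_iff, LinearIsometryEquiv.norm_map]]
    at this
  exact this.integral_comp (rotation ω).toHomeomorph.measurableEmbedding F

theorem Rad.mo {f : ℂ → ℂ} (h : Rad f) {a b : ℕ} (hab : a ≠ b) : mo f a b = 0 := by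
  obtain ⟨φ, h⟩ := h
  have h1 : MP_119a45_an.mo f a b = MP_119a45_an.mo (fun z => φ ‖z‖) a b :=
    integral_congr_ae (h.mono fun z hz => by simp only [hz])
  have h2 : ((a : ℂ) - b) ≠ 0 := sub_ne_zero.2 (by exact_mod_cast hab)
  set ω := Circle.exp (Real.pi / (a - b)) with hω
  have h3 : (ω : ℂ) ^ a * conj (ω : ℂ) ^ b = -1 := by
    rw [hω, Circle.coe_exp, ← exp_conj, ← exp_nat_mul, ← exp_nat_mul, ← exp_add, ← exp_pi_mul_I]
    congr 1
    simp only [map_mul, conj_ofReal, conj_I]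
    push_cast
    field_simp
    ring
  have h4 := int_rot ω fun z => φ ‖z‖ * (z ^ a * conj z ^ b)
  have h5 : ∀ z : ℂ, φ ‖ω * z‖ * ((ω * z) ^ a * conj (ω * z) ^ b) =
      -(φ ‖z‖ * (z ^ a * conj z ^ b)) := fun z => by
    rw [norm_mul, Circle.norm_coe, one_mul, map_mul]
    linear_combination φ ‖z‖ * z ^ a * conj z ^ b * h3
  simp only [h5, integral_neg] at h4
  rw [h1]
  exact self_eq_neg.1 h4.symm

theorem mo_sum {f : ℂ → ℂ} (hi : Integrable f mu) {ι : Type*} [Fintype ι] (c : ι → ℂ)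
    (e : ι → ℕ) (a b : ℕ) : mo (fun z => f z * ∑ m, c m * (z * conj z) ^ e m) a b =
      ∑ m, c m * mo f (a + e m) (b + e m) := by
  simp only [mo, ← integral_const_mul]
  rw [← integral_finset_sum _ fun m _ => (int_mul hi (by fun_prop)).const_mul _]
  congr 1; funext z
  rw [Finset.mul_sum, Finset.sum_mul]
  exact Finset.sum_congr rfl fun m _ => by ring

theorem degen {f : ℂ → ℂ} (hi : Integrable f mu) (hr : Rad f) {n : ℕ}
    (h : ∀ s ∈ U, Hk (Ph f) n s = 0) : f =ᵐ[mu] 0 := by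
  obtain ⟨d, c, h1, h2⟩ := hankel (Ph_BH hi) n h
  have h3 := luecking (n := 0) (g := fun z => f z * ∑ m, c m * (z * conj z) ^ (4 + m : ℕ))
    (int_mul hi (by fun_prop)) fun a k => by
      refine (Matrix.det_fin_one _).trans ?_
      rw [Matrix.of_apply, mo_sum hi]
      generalize a 0 = a
      generalize k 0 = k
      rcases eq_or_ne a k with rfl | hak
      · rw [← h2 a]
        refine Finset.sum_congr rfl fun m _ => ?_
        rw [Ph_nat']; congr 2 <;> ring
      · exact Finset.sum_eq_zero fun m _ => by rw [hr.mo (by omega), mul_zero]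
  let p : Polynomial ℂ := ∑ m : Fin (d + 1), Polynomial.monomial (4 + m : ℕ) (c m)
  have hp : p ≠ 0 := fun h0 => h1 (by
    have := congrArg (Polynomial.coeff · (4 + (Fin.last d : ℕ))) h0
    simpa only [p, Polynomial.finset_sum_coeff, Polynomial.coeff_monomial, add_right_inj,
      Fin.val_inj, Finset.sum_ite_eq', Finset.mem_univ, if_true, Polynomial.coeff_zero] using this)
  have h4 : ∀ᵐ z ∂mu, ∀ w ∈ p.roots.toFinset, z ∉ sphere (0 : ℂ) √‖w‖ :=
    (eventually_all_finset _).2 fun w _ => ae_restrict_of_ae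
      (measure_eq_zero_iff_ae_notMem.1 (Measure.addHaar_sphere _ _ _))
  filter_upwards [h3, h4] with z h5 h6
  refine (mul_eq_zero.1 h5).resolve_right fun h7 => h6 (z * conj z) ?_ (by simp)
  rw [Multiset.mem_toFinset, Polynomial.mem_roots hp, Polynomial.IsRoot, ← h7]
  simp [p, Polynomial.eval_finset_sum]

theorem extend {g : ℂ → ℂ} (hi : Integrable g mu) {Z : Set ℕ} (hZ : Bl Z) {N : ℕ}
    (h : ∀ a k : Fin (N + 1) → ℕ, (∀ i, a i ∉ Z) → (∀ i, k i ∉ Z) →
      (Matrix.of fun i j => mo g (a i + 2) (k j + 2)).det = 0) : g =ᵐ[mu] 0 := by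
  have h1 := luecking (n := N) (g := fun z => g z * (z ^ 2 * conj z ^ 2))
    (int_mul hi (by fun_prop)) fun a k => by
      have h2 := BH.det (F := fun i j => Ph fun z => g z * (z ^ a i * conj z ^ k j)) fun i j =>
        Ph_BH (int_mul hi (by fun_prop))
      rcases h2.uniq with h3 | h3
      · rw [← h3 ((0 : ℕ) : ℝ) (by simp [U])]
        congr 1; ext i j
        simp only [Matrix.of_apply, Ph_nat, mo]
        congr 1; funext z; ring
      · refine absurd ((h3.union ((Bl.iUnion fun i => hZ.shift (a i)).union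
          (Bl.iUnion fun i => hZ.shift (k i)))).mono fun t _ => ?_) not_Bl
        by_contra h4
        simp only [mem_union, mem_iUnion, mem_ofPred_eq, not_or, not_exists] at h4
        refine h4.1 (Eq.trans ?_ (h _ _ h4.2.1 h4.2.2))
        congr 1; ext i j
        exact Ph_nat g _ _ t
  filter_upwards [h1, mu_ne] with z h2 h3
  simpa [h3] using h2

theorem solve {f : ℂ → ℂ} (hi : Integrable f mu) {n k : ℕ} (h : Hk (Ph f) n k ≠ 0) :
    ∃ c : Fin n → ℂ, ∀ l < n, mo (fun z => 1 - f z * ∑ m, c m * (z * conj z) ^ (m : ℕ))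
      (k + 2 + l) (k + 2 + l) = 0 := by
  obtain ⟨c, hc⟩ := Matrix.mulVec_surjective_iff_isUnit.2 ((Matrix.isUnit_iff_isUnit_det _).2
    (isUnit_iff_ne_zero.2 h)) fun l : Fin n => mo 1 (k + 2 + l) (k + 2 + l)
  refine ⟨c, fun l hl => ?_⟩
  have h1 := congrFun hc ⟨l, hl⟩
  have h2 := mo_sum hi c (fun m => m) (k + 2 + l) (k + 2 + l)
  simp only [mo, sub_mul] at h1 h2 ⊢
  rw [integral_sub (int_mul (integrable_const _) (by fun_prop))
    (int_mul (int_mul hi (by fun_prop)) (by fun_prop)), h2, sub_eq_zero]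
  rw [Matrix.mulVec, dotProduct] at h1
  refine h1.symm.trans (Finset.sum_congr rfl fun m _ => ?_)
  have := Ph_nat' f (k + l + m)
  rw [show k + l + m + 2 = k + 2 + l + m by ring, mo] at this
  rw [mul_comm, ← this, Matrix.of_apply]
  congr 2; push_cast; ring

theorem lim_ind {G : ℂ → ℂ} (hi : Integrable G mu) : Tendsto (fun n : ℕ =>
    ∫ z, (ball (0 : ℂ) (1 - 1 / (n + 1))).indicator G z ∂mu) atTop (𝓝 (∫ z, G z ∂mu)) := by
  refine tendsto_integral_of_dominated_convergence _ (fun n => hi.1.indicator measurableSet_ball)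
    hi.norm (fun n => .of_forall fun z => norm_indicator_le_norm_self _ _)
    (mu_ae.mono fun z hz => tendsto_const_nhds.congr' ?_)
  filter_upwards [tendsto_one_div_add_atTop_nhds_zero_nat.eventually
    (gt_mem_nhds (show 0 < 1 - ‖z‖ by linarith))] with n hn
  rw [indicator_of_mem (by rw [mem_ball_zero_iff]; linarith)]

theorem mean {ρ H : ℂ → ℂ} (hi : Integrable ρ mu) (hr : Rad ρ) (hH : DifferentiableOn ℂ H (ball 0 1))
    {r : ℝ} (h0 : 0 ≤ r) (h1 : r < 1) (m : ℕ) :
    Integrable (fun z => (ball 0 r).indicator ρ z * (conj z ^ m * H z)) mu ∧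
    ∫ z, (ball 0 r).indicator ρ z * (conj z ^ m * H z) ∂mu =
      ((m.factorial : ℂ)⁻¹ * iteratedDeriv m H 0) * mo ((ball 0 r).indicator ρ) m m := by
  obtain ⟨c, hc⟩ : ∃ c : ℕ → ℂ, ∀ j, (j.factorial : ℂ)⁻¹ * iteratedDeriv j H 0 = c j := ⟨_, fun _ => rfl⟩
  rw [hc]
  have h2 : ∀ z : ℂ, ‖z‖ < 1 → HasSum (fun j => c j * z ^ j) (H z) := fun z hz => by
    have := hasSum_taylorSeries_on_ball hH (mem_ball_zero_iff.2 hz)
    simp only [sub_zero, smul_eq_mul, mul_left_comm _ (z ^ _), hc] at this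
    simpa only [mul_comm] using this
  have h3 : Summable fun j => ‖c j‖ * r ^ j := by
    simpa [abs_of_nonneg h0] using (h2 r (by simpa [abs_of_nonneg h0] using h1)).summable.norm
  have h4 : Rad ((ball 0 r).indicator ρ) := by
    obtain ⟨φ, h⟩ := hr
    exact ⟨(Iio r).indicator φ, h.mono fun z hz => by
      by_cases k : ‖z‖ < r <;> simp [k, hz]⟩
  have h5 := hi.indicator (measurableSet_ball (x := 0) (ε := r))
  have h6 : ∀ j, ∀ᵐ z ∂mu, ‖c j * ((ball 0 r).indicator ρ z * (z ^ j * conj z ^ m))‖ ≤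
      ‖ρ z‖ * (‖c j‖ * r ^ j) := fun j => mu_ae.mono fun z hz => by
    by_cases h : z ∈ ball 0 r
    · rw [indicator_of_mem h, norm_mul, norm_mul, norm_mul, norm_pow, norm_pow, norm_conj,
        mul_left_comm]
      have := pow_le_one₀ (norm_nonneg z) hz.le (n := m)
      have := pow_le_pow_left₀ (norm_nonneg z) (mem_ball_zero_iff.1 h).le j
      gcongr
      nlinarith [pow_nonneg (norm_nonneg z) j, pow_nonneg (norm_nonneg z) m]
    · rw [indicator_of_notMem h]; simp; positivity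
  refine ⟨?_, ?_⟩
  · obtain ⟨C, hC⟩ := (isCompact_closedBall (0 : ℂ) r).exists_bound_of_continuousOn
      (f := fun z => conj z ^ m * H z) ((by fun_prop : Continuous fun z : ℂ =>
        conj z ^ m).continuousOn.mul (hH.continuousOn.mono (closedBall_subset_ball h1)))
    refine (hi.norm.mul_const C).mono' (h5.1.mul (((by fun_prop : Continuous fun z : ℂ =>
        conj z ^ m).continuousOn.mul hH.continuousOn).aestronglyMeasurable measurableSet_ball))
      (.of_forall fun z => ?_)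
    by_cases h : z ∈ ball 0 r
    · rw [indicator_of_mem h, norm_mul]
      exact mul_le_mul_of_nonneg_left (hC z (ball_subset_closedBall h)) (norm_nonneg _)
    · rw [indicator_of_notMem h, zero_mul, norm_zero]
      exact mul_nonneg (norm_nonneg _) ((norm_nonneg _).trans (hC 0 (mem_closedBall_self h0)))
  refine (hasSum_integral_of_dominated_convergence _
    (fun j => ((int_mul h5 (by fun_prop)).const_mul _).1) h6
    (.of_forall fun z => h3.mul_left _) (by simp only [tsum_mul_left]; exact hi.norm.mul_const _)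
    (mu_ae.mono fun z hz => ?_)).unique ?_
  · simpa only [mul_assoc, mul_comm, mul_left_comm] using
      (h2 z hz).mul_left ((ball 0 r).indicator ρ z * conj z ^ m)
  · simp only [integral_const_mul]
    exact hasSum_single m fun j hj => mul_eq_zero_of_right _ (h4.mo hj)

theorem orth {ρ u : ℂ → ℂ} (hi : Integrable ρ mu) (hr : Rad ρ) {n a : ℕ}
    (h0 : ∀ l < n, mo ρ (a + l) (a + l) = 0) {H : Fin n → ℂ → ℂ}
    (hH : ∀ l, DifferentiableOn ℂ (H l) (ball 0 1))
    (hu : u =ᵐ[mu] fun z => ∑ l : Fin n, conj z ^ (l : ℕ) * H l z)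
    (h1 : Integrable (fun z => ρ z * (conj z ^ a * u z)) mu) :
    ∫ z, ρ z * (conj z ^ a * u z) ∂mu = 0 := by
  have h2 := tendsto_finset_sum Finset.univ fun (l : Fin n) _ =>
    (lim_ind (int_mul hi (φ := fun z => z ^ (a + l) * conj z ^ (a + l)) (by fun_prop))).const_mul
      (((a + l).factorial : ℂ)⁻¹ * iteratedDeriv (a + l) (H l) 0)
  rw [Finset.sum_eq_zero fun (l : Fin n) _ => mul_eq_zero_of_right _
    (show (∫ z, ρ z * (z ^ (a + l) * conj z ^ (a + l)) ∂mu) = 0 from h0 l l.2)] at h2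
  refine tendsto_nhds_unique (lim_ind h1) (h2.congr fun k => ?_)
  have h3 : (0 : ℝ) < 1 / (k + 1) := by positivity
  have h4 : 1 / ((k : ℝ) + 1) ≤ 1 := by
    rw [div_le_one (by positivity)]; linarith [k.cast_nonneg (α := ℝ)]
  have h5 := fun l : Fin n => mean hi hr (hH l) (r := 1 - 1 / (k + 1)) (by linarith) (by linarith) (a + l)
  simp only [indicator_mul_left]
  refine (Finset.sum_congr rfl fun l _ => (h5 l).2.symm).trans ?_
  rw [← integral_finset_sum _ fun l _ => (h5 l).1]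
  refine integral_congr_ae (hu.mono fun z hz => ?_)
  simp only [hz, Finset.mul_sum]
  exact Finset.sum_congr rfl fun l _ => by ring

end Pool.Agent.H.MP_119a45_an
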